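import Pool.Agent.MP_439cf8_an.H72.Main

/-! The dual of Schlumprecht space has a renorming for which the canonical basis is 1-greedy.

`S` is a Banach space, `ι` embeds the finitely supported sequences densely in it, and the norm
of `S` restricted to them satisfies the implicit equation of Schlumprecht: so `S` is the
Schlumprecht space.  `e n` is the `n`-th coordinate functional; the coordinates of a functional
`f` in the basis `e` are its values at the unit vectors. -/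

theorem Pool.Agent.Results.MP_439cf8_an.OneGreedy.result
    (S : Type*) [NormedAddCommGroup S] [NormedSpace ℝ S] [CompleteSpace S]
    (ι : (ℕ →₀ ℝ) →ₗ[ℝ] S) (hdense : DenseRange ι)
    (hnorm : ∀ x : ℕ →₀ ℝ, IsLUB
      ({r | ∃ k, r = |x k|} ∪
        {r | ∃ n : ℕ, 2 ≤ n ∧ ∃ a b : Fin n → ℕ, (∀ i, a i ≤ b i) ∧ (∀ i j, i < j → b i < a j) ∧
          r = (Real.logb 2 (n + 1))⁻¹ *
            ∑ i, ‖ι (x.filter fun k => k ∈ Finset.Icc (a i) (b i))‖})
      ‖ι x‖)
    (e : ℕ → StrongDual ℝ S) (he : ∀ n x, e n (ι x) = x n) :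
    ∃ N : Seminorm ℝ (StrongDual ℝ S),
      (∃ c C : ℝ, 0 < c ∧ ∀ f, c * ‖f‖ ≤ N f ∧ N f ≤ C * ‖f‖) ∧
      ∀ (f : StrongDual ℝ S) (m : ℕ) (A : Finset ℕ), A.card = m →
        (∀ n ∈ A, ∀ k ∉ A, |f (ι (Finsupp.single k 1))| ≤ |f (ι (Finsupp.single n 1))|) →
        ∀ (B : Finset ℕ) (c : ℕ → ℝ), B.card ≤ m →
          N (f - ∑ n ∈ A, f (ι (Finsupp.single n 1)) • e n) ≤ N (f - ∑ n ∈ B, c n • e n) :=
  Pool.Agent.MP_439cf8_an.H72.main hdense hnorm e he
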